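import Pool.Agent.X51.Span

set_option autoImplicit false

/-!
# MP_5df1f6: the missing numbers of frustrated triples

If `G` has `n` vertices, `t` edges and `s` triples spanning at least two edges, then
`f(G) = t(n-2) - 2s`.  We determine all possible values of `s`.
-/

namespace Pool.Agent.Results.MP_5df1f6_co.MissingValues

open SimpleGraph Finset Pool.Agent.X51.Span

open Classical in
/-- `f(G)`: the number of vertex triples spanning an odd number of edges. -/
noncomputable def frustrated {n : ℕ} (G : SimpleGraph (Fin n)) : ℕ :=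
  (((univ : Finset (Fin n)).powersetCard 3).filter fun T => Odd (spanned G T)).card

/-- `S_t`: the values of `f` on graphs with `n` vertices and `t` edges. -/
def S (n t : ℕ) : Set ℕ :=
  {x | ∃ G : SimpleGraph (Fin n), G.edgeSet.ncard = t ∧ frustrated G = x}

/-- `a_t = t(n-t-1)` -/
def a (n t : ℕ) : ℕ := t * (n - t - 1)

/-- `b_t = t(n-2)` -/
def b (n t : ℕ) : ℕ := t * (n - 2)

/-- `t_max` -/
noncomputable def tmax (n : ℕ) : ℕ := sSup {t : ℕ | t * (t + 1) < n - 2}

/-! ### connected triples -/

open Classical in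
/-- the triples spanning at least two edges -/
noncomputable def conn {n : ℕ} (G : SimpleGraph (Fin n)) : Finset (Finset (Fin n)) :=
  ((univ : Finset (Fin n)).powersetCard 3).filter fun T => 4 ≤ D G T

theorem D_triple {n : ℕ} (G : SimpleGraph (Fin n)) [DecidableRel G.Adj] {x y z : Fin n}
    (hxy : x ≠ y) (hxz : x ≠ z) (hyz : y ≠ z) :
    D G {x, y, z} = 2 * ((if G.Adj x y then 1 else 0) + (if G.Adj x z then 1 else 0) +
      (if G.Adj y z then 1 else 0)) := by
  classical
  rw [D_eq]
  have hs1 : x ∉ ({y, z} : Finset (Fin n)) := by simp [hxy, hxz]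
  have hs2 : y ∉ ({z} : Finset (Fin n)) := by simp [hyz]
  have e1 := G.adj_comm y x
  have e2 := G.adj_comm z x
  have e3 := G.adj_comm z y
  simp only [Finset.sum_insert hs1, Finset.sum_insert hs2, Finset.sum_singleton,
    SimpleGraph.irrefl, if_false, e1, e2, e3]
  ring

theorem mem_conn {n : ℕ} (G : SimpleGraph (Fin n)) (T : Finset (Fin n)) :
    T ∈ conn G ↔ ∃ x y z, y ≠ z ∧ G.Adj x y ∧ G.Adj x z ∧ T = {x, y, z} := by
  classical
  unfold conn
  rw [mem_filter, mem_powersetCard]
  constructor
  · rintro ⟨⟨_, hT⟩, hD⟩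
    obtain ⟨x, y, z, hxy, hxz, hyz, rfl⟩ := Finset.card_eq_three.1 hT
    rw [D_triple G hxy hxz hyz] at hD
    by_cases h1 : G.Adj x y
    · by_cases h2 : G.Adj x z
      · exact ⟨x, y, z, hyz, h1, h2, rfl⟩
      · by_cases h3 : G.Adj y z
        · refine ⟨y, x, z, hxz, h1.symm, h3, ?_⟩
          rw [Finset.insert_comm]
        · simp [h1, h2, h3] at hD
    · by_cases h2 : G.Adj x z
      · by_cases h3 : G.Adj y z
        · refine ⟨z, x, y, hxy, h2.symm, h3.symm, ?_⟩
          ext w
          simp only [mem_insert, mem_singleton]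
          tauto
        · simp [h1, h2, h3] at hD
      · by_cases h3 : G.Adj y z
        · simp [h1, h2, h3] at hD
        · simp [h1, h2, h3] at hD
  · rintro ⟨x, y, z, hyz, hxy, hxz, rfl⟩
    refine ⟨⟨subset_univ _, ?_⟩, ?_⟩
    · exact Finset.card_eq_three.2 ⟨x, y, z, hxy.ne, hxz.ne, hyz, rfl⟩
    · rw [D_triple G hxy.ne hxz.ne hyz, if_pos hxy, if_pos hxz]
      omega

/-! ### the identity `f + 2s = t(n-2)` -/

theorem card_triples {n : ℕ} {x y : Fin n} (hxy : x ≠ y) :
    (((univ : Finset (Fin n)).powersetCard 3).filter fun T => x ∈ T ∧ y ∈ T).card = n - 2 := by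
  classical
  have h : (((univ : Finset (Fin n)).powersetCard 3).filter fun T => x ∈ T ∧ y ∈ T) =
      (({x, y} : Finset (Fin n))ᶜ).image (fun z => {x, y, z}) := by
    ext T
    rw [mem_filter, mem_powersetCard, mem_image]
    constructor
    · rintro ⟨⟨_, hT⟩, hx, hy⟩
      have h1 : ({x, y} : Finset (Fin n)) ⊆ T := by
        intro w hw
        simp only [mem_insert, mem_singleton] at hw
        rcases hw with rfl | rfl <;> assumption
      have h2 : (T \ {x, y}).card = 1 := by
        rw [card_sdiff_of_subset h1, hT, card_pair hxy]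
      obtain ⟨z, hz⟩ := Finset.card_eq_one.1 h2
      have hz' : z ∈ T \ {x, y} := by rw [hz]; exact mem_singleton_self z
      rw [mem_sdiff] at hz'
      refine ⟨z, mem_compl.2 hz'.2, ?_⟩
      have h3 : T = {x, y} ∪ (T \ {x, y}) := (union_sdiff_of_subset h1).symm
      rw [h3, hz]
      ext w
      simp only [mem_union, mem_insert, mem_singleton]
      tauto
    · rintro ⟨z, hz, rfl⟩
      rw [mem_compl, mem_insert, mem_singleton, not_or] at hz
      refine ⟨⟨subset_univ _, ?_⟩, by simp, by simp⟩
      exact Finset.card_eq_three.2 ⟨x, y, z, hxy, fun h => hz.1 h.symm, fun h => hz.2 h.symm, rfl⟩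
  rw [h, card_image_of_injOn, card_compl, card_pair hxy, Fintype.card_fin]
  intro z hz w hw hzw
  rw [coe_compl, Set.mem_compl_iff, mem_coe, mem_insert, mem_singleton, not_or] at hz hw
  have : z ∈ ({x, y, w} : Finset (Fin n)) := by
    rw [← (show ({x, y, z} : Finset (Fin n)) = {x, y, w} from hzw)]
    simp
  simp only [mem_insert, mem_singleton] at this
  tauto

theorem sum_D {n : ℕ} (G : SimpleGraph (Fin n)) :
    ∑ T ∈ (univ : Finset (Fin n)).powersetCard 3, D G T = 2 * (G.edgeSet.ncard * (n - 2)) := by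
  classical
  have h1 : ∀ T : Finset (Fin n), D G T =
      ∑ x, ∑ y, if (x ∈ T ∧ y ∈ T) ∧ G.Adj x y then 1 else 0 := by
    intro T
    rw [D_eq, ← Finset.sum_filter_add_sum_filter_not univ (fun x => x ∈ T)]
    have e1 : (univ : Finset (Fin n)).filter (fun x => x ∈ T) = T := by ext; simp
    rw [e1]
    have e2 : ∑ x ∈ (univ : Finset (Fin n)).filter (fun x => ¬ x ∈ T),
        ∑ y, (if (x ∈ T ∧ y ∈ T) ∧ G.Adj x y then 1 else 0) = 0 := by
      apply Finset.sum_eq_zero
      intro x hx
      rw [mem_filter] at hx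
      apply Finset.sum_eq_zero
      intro y _
      rw [if_neg]
      exact fun h => hx.2 h.1.1
    rw [e2, add_zero]
    apply Finset.sum_congr rfl
    intro x hx
    rw [← Finset.card_filter, ← Finset.card_filter]
    congr 1
    ext y
    simp [hx]
  simp_rw [h1]
  rw [Finset.sum_comm]
  simp_rw [Finset.sum_comm (s := (univ : Finset (Fin n)).powersetCard 3)]
  have h2 : ∀ x y : Fin n, (∑ T ∈ (univ : Finset (Fin n)).powersetCard 3,
      if (x ∈ T ∧ y ∈ T) ∧ G.Adj x y then 1 else 0) = (if G.Adj x y then 1 else 0) * (n - 2) := by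
    intro x y
    by_cases hxy : G.Adj x y
    · simp only [hxy, and_true, if_true, one_mul]
      rw [← Finset.card_filter, card_triples hxy.ne]
    · simp [hxy]
  simp_rw [h2]
  simp_rw [← Finset.sum_mul]
  have h3 := D_univ G
  rw [D_eq] at h3
  rw [h3]
  ring

theorem frustrated_eq {n : ℕ} (G : SimpleGraph (Fin n)) :
    frustrated G + 2 * (conn G).card = G.edgeSet.ncard * (n - 2) := by
  classical
  have h1 := sum_D G
  have h2 : ∀ T ∈ (univ : Finset (Fin n)).powersetCard 3,
      D G T = 2 * (if Odd (spanned G T) then 1 else 0) + 4 * (if 4 ≤ D G T then 1 else 0) := by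
    intro T hT
    rw [mem_powersetCard] at hT
    obtain ⟨x, y, z, hxy, hxz, hyz, rfl⟩ := Finset.card_eq_three.1 hT.2
    have h3 := D_triple G hxy hxz hyz
    have h4 := D_spanned G {x, y, z}
    have h5 : spanned G {x, y, z} ≤ 3 := by
      have e1 : (if G.Adj x y then 1 else 0) ≤ 1 := by split_ifs <;> omega
      have e2 : (if G.Adj x z then 1 else 0) ≤ 1 := by split_ifs <;> omega
      have e3 : (if G.Adj y z then 1 else 0) ≤ 1 := by split_ifs <;> omega
      omega
    rw [h4]
    generalize spanned G {x, y, z} = k at h5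
    interval_cases k
    · simp
    · simp
    · simp
    · have : Odd 3 := by decide
      simp [this]
  rw [Finset.sum_congr rfl h2, Finset.sum_add_distrib, ← Finset.mul_sum, ← Finset.mul_sum,
    ← Finset.card_filter, ← Finset.card_filter] at h1
  have h3 : frustrated G = (((univ : Finset (Fin n)).powersetCard 3).filter
      fun T => Odd (spanned G T)).card := by
    unfold frustrated
    congr!
  have h4 : (conn G).card = (((univ : Finset (Fin n)).powersetCard 3).filter
      fun T => 4 ≤ D G T).card := by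
    unfold conn
    congr!
  omega

/-! ### bounds for the number of connected triples -/

theorem lower {n : ℕ} (G : SimpleGraph (Fin n)) [DecidableRel G.Adj] (v : Fin n) :
    (G.degree v).choose 2 ≤ (conn G).card := by
  classical
  rw [← card_neighborFinset_eq_degree, ← card_powersetCard]
  apply card_le_card_of_injOn (fun P => insert v P)
  · intro P hP
    rw [mem_coe, mem_powersetCard] at hP
    obtain ⟨y, z, hyz, rfl⟩ := Finset.card_eq_two.1 hP.2
    rw [mem_coe, mem_conn]
    refine ⟨v, y, z, hyz, ?_, ?_, rfl⟩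
    · exact (mem_neighborFinset _ _ _).1 (hP.1 (by simp))
    · exact (mem_neighborFinset _ _ _).1 (hP.1 (by simp))
  · intro P hP Q hQ hPQ
    rw [mem_coe, mem_powersetCard] at hP hQ
    have h1 : v ∉ P := fun h => ((mem_neighborFinset _ _ _).1 (hP.1 h)).ne rfl
    have h2 : v ∉ Q := fun h => ((mem_neighborFinset _ _ _).1 (hQ.1 h)).ne rfl
    have h3 := congrArg (fun R => R.erase v) hPQ
    simp only [erase_insert h1, erase_insert h2] at h3
    exact h3

theorem upper_small {n : ℕ} (G : SimpleGraph (Fin n)) [DecidableRel G.Adj] (Δ : ℕ)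
    (hΔ : ∀ v, G.degree v ≤ Δ) : (conn G).card + G.edgeSet.ncard ≤ G.edgeSet.ncard * Δ := by
  classical
  have h1 : (conn G).card ≤ ∑ v, (G.degree v).choose 2 := by
    have h2 : conn G ⊆ univ.biUnion fun v =>
        (powersetCard 2 (G.neighborFinset v)).image (fun P => insert v P) := by
      intro T hT
      rw [mem_conn] at hT
      obtain ⟨x, y, z, hyz, hxy, hxz, rfl⟩ := hT
      rw [mem_biUnion]
      refine ⟨x, mem_univ _, mem_image.2 ⟨{y, z}, ?_, rfl⟩⟩
      rw [mem_powersetCard]
      refine ⟨?_, card_pair hyz⟩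
      intro w hw
      rw [mem_insert, mem_singleton] at hw
      rw [mem_neighborFinset]
      rcases hw with rfl | rfl <;> assumption
    refine (card_le_card h2).trans (card_biUnion_le.trans (sum_le_sum fun v _ => ?_))
    refine card_image_le.trans ?_
    rw [card_powersetCard, card_neighborFinset_eq_degree]
  have h3 : ∀ v, 2 * (G.degree v).choose 2 + G.degree v ≤ G.degree v * Δ := by
    intro v
    have h4 : 2 * (G.degree v).choose 2 + G.degree v = G.degree v * G.degree v := by
      rw [Nat.choose_two_right, Nat.mul_div_cancel' (Nat.even_mul_pred_self _).two_dvd]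
      cases G.degree v with
      | zero => rfl
      | succ k => simp; ring
    rw [h4]
    exact Nat.mul_le_mul_left _ (hΔ v)
  have h4 : 2 * ∑ v, (G.degree v).choose 2 + ∑ v, G.degree v ≤ (∑ v, G.degree v) * Δ := by
    rw [Finset.mul_sum, Finset.sum_mul, ← Finset.sum_add_distrib]
    exact sum_le_sum fun v _ => h3 v
  have h5 := G.sum_degrees_eq_twice_card_edges
  have h6 : G.edgeSet.ncard = G.edgeFinset.card := by
    rw [← coe_edgeFinset, Set.ncard_coe_finset]
  rw [h6]
  rw [h5] at h4
  nlinarith

theorem upper_large {n : ℕ} (G : SimpleGraph (Fin n)) [DecidableRel G.Adj] (v : Fin n) :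
    G.degree v ≤ G.edgeSet.ncard ∧
    (conn G).card ≤ (G.degree v).choose 2 + (G.edgeSet.ncard - G.degree v + 1).choose 2 := by
  classical
  set E' := G.edgeFinset \ G.incidenceFinset v with hE'
  have hsub : G.incidenceFinset v ⊆ G.edgeFinset := by
    intro e he
    rw [mem_incidenceFinset] at he
    rw [mem_edgeFinset]
    exact he.1
  have h6 : G.edgeSet.ncard = G.edgeFinset.card := by
    rw [← coe_edgeFinset, Set.ncard_coe_finset]
  have hle : G.degree v ≤ G.edgeSet.ncard := by
    rw [h6, ← card_incidenceFinset_eq_degree]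
    exact card_le_card hsub
  refine ⟨hle, ?_⟩
  have hcE : E'.card = G.edgeSet.ncard - G.degree v := by
    rw [hE', card_sdiff_of_subset hsub, h6, card_incidenceFinset_eq_degree]
  have hmem : ∀ x y, G.Adj x y → x ≠ v → y ≠ v → s(x, y) ∈ E' := by
    intro x y hxy hx hy
    rw [hE', mem_sdiff, mem_edgeFinset, mem_incidenceFinset]
    refine ⟨hxy, fun h => ?_⟩
    have := h.2
    rw [Sym2.mem_iff] at this
    rcases this with rfl | rfl
    · exact hx rfl
    · exact hy rfl
  have hcov : conn G ⊆ ((powersetCard 2 (G.neighborFinset v)).image (fun P => insert v P)) ∪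
      (E'.image (fun e => insert v e.toFinset) ∪
      (powersetCard 2 E').image (fun Q => Q.biUnion Sym2.toFinset)) := by
    intro T hT
    rw [mem_conn] at hT
    obtain ⟨x, y, z, hyz, hxy, hxz, rfl⟩ := hT
    rw [mem_union, mem_union]
    by_cases hx : x = v
    · left
      subst hx
      refine mem_image.2 ⟨{y, z}, ?_, rfl⟩
      rw [mem_powersetCard]
      refine ⟨?_, card_pair hyz⟩
      intro w hw
      rw [mem_insert, mem_singleton] at hw
      rw [mem_neighborFinset]
      rcases hw with rfl | rfl <;> assumption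
    · right
      by_cases hy : y = v
      · left
        subst hy
        refine mem_image.2 ⟨s(x, z), hmem x z hxz hx hyz.symm, ?_⟩
        rw [Sym2.toFinset_mk_eq]
        exact Finset.insert_comm _ _ _
      · by_cases hz : z = v
        · left
          subst hz
          refine mem_image.2 ⟨s(x, y), hmem x y hxy hx hy, ?_⟩
          rw [Sym2.toFinset_mk_eq]
          ext w
          simp only [mem_insert, mem_singleton]
          tauto
        · right
          refine mem_image.2 ⟨{s(x, y), s(x, z)}, ?_, ?_⟩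
          · rw [mem_powersetCard]
            refine ⟨?_, card_pair ?_⟩
            · intro e he
              rw [mem_insert, mem_singleton] at he
              rcases he with rfl | rfl
              · exact hmem x y hxy hx hy
              · exact hmem x z hxz hx hz
            · intro h
              exact hyz (Sym2.congr_right.1 h)
          · rw [biUnion_insert, singleton_biUnion, Sym2.toFinset_mk_eq, Sym2.toFinset_mk_eq]
            ext w
            simp only [mem_union, mem_insert, mem_singleton]
            tauto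
  have h1 := card_le_card hcov
  have h2 := card_union_le ((powersetCard 2 (G.neighborFinset v)).image (fun P => insert v P))
    (E'.image (fun e => insert v e.toFinset) ∪
      (powersetCard 2 E').image (fun Q => Q.biUnion Sym2.toFinset))
  have h3 := card_union_le (E'.image (fun e => insert v e.toFinset))
      ((powersetCard 2 E').image (fun Q => Q.biUnion Sym2.toFinset))
  have h4 : ((powersetCard 2 (G.neighborFinset v)).image (fun P => insert v P)).card ≤
      (G.degree v).choose 2 := by
    refine card_image_le.trans ?_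
    rw [card_powersetCard, card_neighborFinset_eq_degree]
  have h5 : (E'.image (fun e => insert v e.toFinset)).card ≤ E'.card := card_image_le
  have h7 : ((powersetCard 2 E').image (fun Q => Q.biUnion Sym2.toFinset)).card ≤
      E'.card.choose 2 := by
    refine card_image_le.trans ?_
    rw [card_powersetCard]
  have h8 : (E'.card + 1).choose 2 = E'.card + E'.card.choose 2 := by
    rw [Nat.choose_succ_succ' _ 1, Nat.choose_one_right]
  rw [← hcE]
  omega

/-! ### adding an edge -/

theorem D_add {n : ℕ} (G : SimpleGraph (Fin n)) {u w : Fin n} (huw : u ≠ w) (h : ¬ G.Adj u w) :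
    (G ⊔ edge u w).edgeSet.ncard = G.edgeSet.ncard + 1 := by
  classical
  have h1 : (G ⊔ edge u w).edgeSet = insert s(u, w) G.edgeSet := by
    rw [edgeSet_sup, edgeSet_edge_of_ne huw, Set.union_comm]
    rfl
  rw [h1, Set.ncard_insert_of_notMem]
  exact h

open Classical in
theorem conn_add {n : ℕ} (G : SimpleGraph (Fin n)) {u w : Fin n} (huw : u ≠ w)
    (h : ¬ G.Adj u w) (hno : ∀ z, ¬ (G.Adj u z ∧ G.Adj w z)) :
    (conn (G ⊔ edge u w)).card =
      (conn G).card + (univ.filter fun z => G.Adj u z ∨ G.Adj w z).card := by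
  set G' := G ⊔ edge u w with hG'
  have hadj : ∀ x y, G'.Adj x y ↔ G.Adj x y ∨ (((x = u ∧ y = w) ∨ (x = w ∧ y = u)) ∧ x ≠ y) := by
    intro x y
    rw [hG', sup_adj, edge_adj]
  have hle : G ≤ G' := le_sup_left
  have h1 : conn G' = conn G ∪ (univ.filter fun z => G.Adj u z ∨ G.Adj w z).image
      (fun z => {u, w, z}) := by
    ext T
    rw [mem_union, mem_image]
    constructor
    · intro hT
      by_cases hT' : T ∈ conn G
      · exact Or.inl hT'
      · right
        have hT0 := hT
        rw [mem_conn] at hT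
        obtain ⟨x, y, z, hyz, hxy, hxz, rfl⟩ := hT
        rw [hadj] at hxy hxz
        rcases hxy with hxy | ⟨⟨rfl, rfl⟩ | ⟨rfl, rfl⟩, hne⟩
        · rcases hxz with hxz | ⟨⟨rfl, rfl⟩ | ⟨rfl, rfl⟩, hne⟩
          · exfalso
            exact hT' ((mem_conn G _).2 ⟨x, y, z, hyz, hxy, hxz, rfl⟩)
          · refine ⟨y, by simp [hxy], ?_⟩
            ext v
            simp only [mem_insert, mem_singleton]
            tauto
          · refine ⟨y, by simp [hxy], ?_⟩
            ext v
            simp only [mem_insert, mem_singleton]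
            tauto
        · rcases hxz with hxz | ⟨⟨_, rfl⟩ | ⟨rfl, rfl⟩, hne'⟩
          · exact ⟨z, by simp [hxz], rfl⟩
          · exact absurd rfl hyz
          · exact absurd rfl hne
        · rcases hxz with hxz | ⟨⟨rfl, rfl⟩ | ⟨_, rfl⟩, hne'⟩
          · refine ⟨z, by simp [hxz], ?_⟩
            exact Finset.insert_comm _ _ _
          · exact absurd rfl hne
          · exact absurd rfl hyz
    · rintro (hT | ⟨z, hz, rfl⟩)
      · rw [mem_conn] at hT ⊢
        obtain ⟨x, y, z, hyz, hxy, hxz, rfl⟩ := hT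
        exact ⟨x, y, z, hyz, hle hxy, hle hxz, rfl⟩
      · rw [mem_filter] at hz
        rw [mem_conn]
        rcases hz.2 with hz | hz
        · have : w ≠ z := by
            rintro rfl
            exact h hz
          exact ⟨u, w, z, this, (hadj _ _).2 (Or.inr ⟨Or.inl ⟨rfl, rfl⟩, huw⟩), hle hz, rfl⟩
        · have : u ≠ z := by
            rintro rfl
            exact h hz.symm
          refine ⟨w, u, z, this, (hadj _ _).2 (Or.inr ⟨Or.inr ⟨rfl, rfl⟩, huw.symm⟩), hle hz, ?_⟩
          exact Finset.insert_comm _ _ _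
  have hz_ne : ∀ z ∈ (univ.filter fun z => G.Adj u z ∨ G.Adj w z), u ≠ z ∧ w ≠ z := by
    intro z hz
    rw [mem_filter] at hz
    rcases hz.2 with hz | hz
    · exact ⟨hz.ne, fun h' => h (h' ▸ hz)⟩
    · exact ⟨fun h' => h (h' ▸ hz).symm, hz.ne⟩
  rw [h1, card_union_of_disjoint, card_image_of_injOn]
  · intro z hz z' hz' hzz
    obtain ⟨n1, n2⟩ := hz_ne z (mem_coe.1 hz)
    obtain ⟨n3, n4⟩ := hz_ne z' (mem_coe.1 hz')
    have : z ∈ ({u, w, z'} : Finset (Fin n)) := by
      rw [← (show ({u, w, z} : Finset (Fin n)) = {u, w, z'} from hzz)]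
      simp
    simp only [mem_insert, mem_singleton] at this
    rcases this with h' | h' | h'
    · exact absurd h'.symm n1
    · exact absurd h'.symm n2
    · exact h'
  · rw [Finset.disjoint_left]
    intro T hT hT'
    obtain ⟨z, hz, rfl⟩ := mem_image.1 hT'
    obtain ⟨n1, n2⟩ := hz_ne z hz
    unfold conn at hT
    rw [mem_filter, D_triple G huw n1 n2, if_neg h] at hT
    have h3 := hno z
    have h4 := hT.2
    by_cases e1 : G.Adj u z
    · by_cases e2 : G.Adj w z
      · exact h3 ⟨e1, e2⟩
      · rw [if_pos e1, if_neg e2] at h4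
        omega
    · rw [if_neg e1] at h4
      split_ifs at h4 <;> omega

/-! ### realization -/

/-- `0` is joined to `2, …, a+1` and `1` is joined to `c+2, …, c+k+1`. -/
def two (n a c k : ℕ) : SimpleGraph (Fin n) where
  Adj x y := ((x.val = 0 ∧ 2 ≤ y.val ∧ y.val < 2 + a) ∨
      (x.val = 1 ∧ 2 + c ≤ y.val ∧ y.val < 2 + c + k)) ∨
    ((y.val = 0 ∧ 2 ≤ x.val ∧ x.val < 2 + a) ∨ (y.val = 1 ∧ 2 + c ≤ x.val ∧ x.val < 2 + c + k))
  symm := ⟨fun x y h => h.symm⟩
  loopless := ⟨fun x h => by omega⟩

theorem two_adj (n a c k : ℕ) (x y : Fin n) : (two n a c k).Adj x y ↔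
    ((x.val = 0 ∧ 2 ≤ y.val ∧ y.val < 2 + a) ∨
      (x.val = 1 ∧ 2 + c ≤ y.val ∧ y.val < 2 + c + k)) ∨
    ((y.val = 0 ∧ 2 ≤ x.val ∧ x.val < 2 + a) ∨
      (y.val = 1 ∧ 2 + c ≤ x.val ∧ x.val < 2 + c + k)) := Iff.rfl

theorem card_fin_filter (n : ℕ) (p : ℕ → Prop) [DecidablePred p] :
    ((univ : Finset (Fin n)).filter fun z => p z.val).card = ((range n).filter p).card := by
  rw [← card_map Fin.valEmbedding]
  congr 1
  ext x
  simp only [mem_map, mem_filter, mem_univ, true_and, Fin.valEmbedding_apply, mem_range]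
  constructor
  · rintro ⟨z, hz, rfl⟩
    exact ⟨z.isLt, hz⟩
  · rintro ⟨hx, hp⟩
    exact ⟨⟨x, hx⟩, hp, rfl⟩

theorem two_zero (n a c : ℕ) (hn : 2 + a ≤ n) :
    (two n a c 0).edgeSet.ncard = a ∧ (conn (two n a c 0)).card = a.choose 2 := by
  classical
  induction a with
  | zero =>
    have h0 : two n 0 c 0 = ⊥ := by
      ext x y
      rw [two_adj]
      simp only [bot_adj, iff_false]
      omega
    rw [h0]
    constructor
    · simp
    · have : conn (⊥ : SimpleGraph (Fin n)) = ∅ := by
        rw [Finset.eq_empty_iff_forall_notMem]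
        intro T hT
        rw [mem_conn] at hT
        obtain ⟨x, y, z, _, hxy, _⟩ := hT
        exact hxy
      rw [this]
      rfl
  | succ a ih =>
    obtain ⟨ih1, ih2⟩ := ih (by omega)
    let u : Fin n := ⟨0, by omega⟩
    let w : Fin n := ⟨2 + a, by omega⟩
    have hu : u.val = 0 := rfl
    have hw : w.val = 2 + a := rfl
    have huw : u ≠ w := by
      rw [Ne, Fin.ext_iff, hu, hw]
      omega
    have hadj : ¬ (two n a c 0).Adj u w := by
      rw [two_adj, hu, hw]
      omega
    have hno : ∀ z, ¬ ((two n a c 0).Adj u z ∧ (two n a c 0).Adj w z) := by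
      intro z
      rw [two_adj, two_adj, hu, hw]
      omega
    have heq : two n (a + 1) c 0 = two n a c 0 ⊔ edge u w := by
      ext x y
      rw [sup_adj, edge_adj, two_adj, two_adj]
      simp only [Fin.ext_iff, hu, hw, Ne]
      omega
    rw [heq, D_add _ huw hadj, conn_add _ huw hadj hno, ih1, ih2]
    refine ⟨rfl, ?_⟩
    have h1 : (univ.filter fun z => (two n a c 0).Adj u z ∨ (two n a c 0).Adj w z) =
        univ.filter fun z : Fin n => 2 ≤ z.val ∧ z.val < 2 + a := by
      ext z
      simp only [mem_filter, mem_univ, true_and]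
      rw [two_adj, two_adj, hu, hw]
      omega
    rw [h1, card_fin_filter n (fun x => 2 ≤ x ∧ x < 2 + a)]
    have h2 : (range n).filter (fun x => 2 ≤ x ∧ x < 2 + a) = Ico 2 (2 + a) := by
      ext x
      simp only [mem_filter, mem_range, mem_Ico]
      omega
    have h3 : (a + 1).choose 2 = a + a.choose 2 := by
      rw [Nat.choose_succ_succ' _ 1, Nat.choose_one_right]
    rw [h2, Nat.card_Ico, h3]
    omega

theorem two_card (n a c k : ℕ) (hca : c ≤ a) (hn : 2 + a ≤ n) (hk : 2 + c + k ≤ n) :
    (two n a c k).edgeSet.ncard = a + k ∧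
    (conn (two n a c k)).card = a.choose 2 + k.choose 2 + min k (a - c) := by
  classical
  induction k with
  | zero =>
    obtain ⟨h1, h2⟩ := two_zero n a c hn
    rw [h1, h2]
    simp
  | succ k ih =>
    obtain ⟨ih1, ih2⟩ := ih (by omega)
    let u : Fin n := ⟨1, by omega⟩
    let w : Fin n := ⟨2 + c + k, by omega⟩
    have hu : u.val = 1 := rfl
    have hw : w.val = 2 + c + k := rfl
    have huw : u ≠ w := by
      rw [Ne, Fin.ext_iff, hu, hw]
      omega
    have hadj : ¬ (two n a c k).Adj u w := by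
      rw [two_adj, hu, hw]
      omega
    have hno : ∀ z, ¬ ((two n a c k).Adj u z ∧ (two n a c k).Adj w z) := by
      intro z
      rw [two_adj, two_adj, hu, hw]
      omega
    have heq : two n a c (k + 1) = two n a c k ⊔ edge u w := by
      ext x y
      rw [sup_adj, edge_adj, two_adj, two_adj]
      simp only [Fin.ext_iff, hu, hw, Ne]
      omega
    rw [heq, D_add _ huw hadj, conn_add _ huw hadj hno, ih1, ih2]
    refine ⟨by omega, ?_⟩
    have h1 : (univ.filter fun z => (two n a c k).Adj u z ∨ (two n a c k).Adj w z) =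
        univ.filter fun z : Fin n => (2 + c ≤ z.val ∧ z.val < 2 + c + k) ∨
          (z.val = 0 ∧ c + k < a) := by
      ext z
      simp only [mem_filter, mem_univ, true_and]
      rw [two_adj, two_adj, hu, hw]
      omega
    rw [h1, card_fin_filter n (fun x => (2 + c ≤ x ∧ x < 2 + c + k) ∨ (x = 0 ∧ c + k < a))]
    have h3 : (k + 1).choose 2 = k + k.choose 2 := by
      rw [Nat.choose_succ_succ' _ 1, Nat.choose_one_right]
    by_cases hlt : c + k < a
    · have h2 : (range n).filter (fun x => (2 + c ≤ x ∧ x < 2 + c + k) ∨ (x = 0 ∧ c + k < a)) =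
          insert 0 (Ico (2 + c) (2 + c + k)) := by
        ext x
        simp only [mem_filter, mem_range, mem_Ico, mem_insert]
        omega
      rw [h2, card_insert_of_notMem (by simp), Nat.card_Ico]
      omega
    · have h2 : (range n).filter (fun x => (2 + c ≤ x ∧ x < 2 + c + k) ∨ (x = 0 ∧ c + k < a)) =
          Ico (2 + c) (2 + c + k) := by
        ext x
        simp only [mem_filter, mem_range, mem_Ico]
        omega
      rw [h2, Nat.card_Ico]
      omega

/-- adding a disjoint edge -/
theorem add_isolated {n t s : ℕ} (G : SimpleGraph (Fin n)) (ht : G.edgeSet.ncard = t)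
    (hs : (conn G).card = s) (hn : 2 * t + 2 ≤ n) :
    ∃ G' : SimpleGraph (Fin n), G'.edgeSet.ncard = t + 1 ∧ (conn G').card = s := by
  classical
  set U := G.edgeFinset.biUnion Sym2.toFinset with hU
  have hUc : U.card ≤ 2 * t := by
    refine card_biUnion_le.trans ?_
    have h1 : ∀ e ∈ G.edgeFinset, e.toFinset.card ≤ 2 := by
      intro e _
      induction e using Sym2.ind with
      | _ x y =>
        rw [Sym2.toFinset_mk_eq]
        exact card_le_two
    refine (sum_le_card_nsmul _ _ 2 h1).trans ?_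
    rw [smul_eq_mul, ← ht, ← coe_edgeFinset, Set.ncard_coe_finset, mul_comm]
  have hc : 1 < (Uᶜ).card := by
    rw [card_compl, Fintype.card_fin]
    omega
  obtain ⟨u, hu, w, hw, huw⟩ := one_lt_card.1 hc
  have hiso : ∀ v, v ∈ Uᶜ → ∀ z, ¬ G.Adj v z := by
    intro v hv z hvz
    rw [mem_compl, hU, mem_biUnion] at hv
    apply hv
    refine ⟨s(v, z), mem_edgeFinset.2 hvz, ?_⟩
    rw [Sym2.toFinset_mk_eq]
    simp
  refine ⟨G ⊔ edge u w, ?_, ?_⟩
  · rw [D_add _ huw (hiso u hu w), ht]
  · rw [conn_add _ huw (hiso u hu w) (fun z h => hiso u hu z h.1), hs]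
    have : (univ.filter fun z => G.Adj u z ∨ G.Adj w z) = ∅ := by
      rw [Finset.eq_empty_iff_forall_notMem]
      intro z hz
      rw [mem_filter] at hz
      rcases hz.2 with h | h
      · exact hiso u hu z h
      · exact hiso w hw z h
    rw [this, card_empty, add_zero]

theorem realize {n t a i l : ℕ} (hn : 2 * t + 2 ≤ n) (hai : a + i ≤ t) (hli : l ≤ i) (hla : l ≤ a) :
    ∃ G : SimpleGraph (Fin n), G.edgeSet.ncard = t ∧
      (conn G).card = a.choose 2 + i.choose 2 + l := by
  obtain ⟨d, hd⟩ := Nat.exists_eq_add_of_le hai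
  subst hd
  induction d with
  | zero =>
    obtain ⟨h1, h2⟩ := two_card n a (a - l) i (Nat.sub_le _ _) (by omega) (by omega)
    refine ⟨_, h1, ?_⟩
    rw [h2]
    congr 1
    omega
  | succ d ih =>
    obtain ⟨G, h1, h2⟩ := ih (by omega) (by omega)
    obtain ⟨G', h3, h4⟩ := add_isolated G h1 h2 (by omega)
    exact ⟨G', h3, h4⟩

/-! ### arithmetic -/

theorem two_choose (m : ℕ) : 2 * m.choose 2 + m = m * m := by
  rw [Nat.choose_two_right, Nat.mul_div_cancel' (Nat.even_mul_pred_self m).two_dvd]
  cases m with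
  | zero => rfl
  | succ k => simp; ring

theorem exists_level (m r : ℕ) : ∃ i ≤ m, i.choose 2 ≤ r ∧ (i < m → r < (i + 1).choose 2) := by
  induction m with
  | zero => exact ⟨0, le_rfl, Nat.zero_le _, fun h => absurd h (lt_irrefl 0)⟩
  | succ m ih =>
    by_cases h : (m + 1).choose 2 ≤ r
    · exact ⟨m + 1, le_rfl, h, fun h => absurd h (lt_irrefl _)⟩
    · obtain ⟨i, h1, h2, h3⟩ := ih
      refine ⟨i, by omega, h2, fun _ => ?_⟩
      by_cases hi : i < m
      · exact h3 hi
      · have : i = m := by omega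
        subst this
        omega

/-- The gap condition for `s`, the number of connected triples. -/
theorem not_gap_realized {n t s : ℕ} (ht : 1 ≤ t) (hn : 2 * t + 2 ≤ n) (hs : s ≤ t.choose 2)
    (hgap : ∀ i j a : ℕ, i + 1 = j → j + a = t → s < (a + 1).choose 2 →
      s ≤ a.choose 2 + (j + 1).choose 2) :
    ∃ G : SimpleGraph (Fin n), G.edgeSet.ncard = t ∧ (conn G).card = s := by
  obtain ⟨a, ha1, ha2, ha3⟩ := exists_level t s
  have hsucc : ∀ m : ℕ, (m + 1).choose 2 = m + m.choose 2 := fun m => by
    rw [Nat.choose_succ_succ' _ 1, Nat.choose_one_right]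
  have ha0 : 1 ≤ a := by
    by_contra h
    have h0 : a = 0 := by omega
    subst h0
    have := ha3 (by omega)
    simp at this
  by_cases hat : a = t
  · subst hat
    have : s = a.choose 2 := le_antisymm hs ha2
    obtain ⟨G, h1, h2⟩ := realize (n := n) (t := a) (a := a) (i := 0) (l := 0) hn le_rfl le_rfl
      (Nat.zero_le _)
    exact ⟨G, h1, by rw [h2, this]; simp⟩
  · have hlt : a < t := by omega
    have h1 := ha3 hlt
    obtain ⟨i, hi⟩ : ∃ i, i + 1 + a = t := ⟨t - a - 1, by omega⟩
    have h2 := hgap i (i + 1) a rfl hi h1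
    obtain ⟨r, rfl⟩ := Nat.exists_eq_add_of_le ha2
    have hr : r ≤ (i + 1 + 1).choose 2 := by omega
    have hra : r < a := by
      rw [hsucc] at h1
      omega
    obtain ⟨q, hq1, hq2, hq3⟩ := exists_level (i + 1) r
    obtain ⟨l, rfl⟩ := Nat.exists_eq_add_of_le hq2
    have hl : l ≤ q := by
      by_cases hq : q < i + 1
      · have := hq3 hq
        rw [hsucc] at this
        omega
      · have : q = i + 1 := by omega
        subst this
        have := hsucc (i + 1)
        omega
    obtain ⟨G, h3, h4⟩ := realize (n := n) (t := t) (a := a) (i := q) (l := l) hn (by omega) hl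
      (by omega)
    exact ⟨G, h3, by rw [h4]; ring⟩

theorem arith_gap (D M I K s x1 x2 x3 x4 : ℤ) (_hD0 : 0 ≤ D) (hI0 : 0 ≤ I)
    (c1 : 2 * x1 + D = D * D) (c2 : 2 * x2 + (M + 1) = (M + 1) * (M + 1))
    (c3 : 2 * x3 + (I + 1) = (I + 1) * (I + 1)) (c4 : 2 * x4 + (D + M) = (D + M) * (D + M))
    (k1 : s + K = x4) (k2 : x1 ≤ s) (k3 : s ≤ x1 + x2) (k4 : s + (D + M) ≤ (D + M) * D)
    (h1 : I * (D + M) - x3 < K) (h2 : K < (I + 1) * (D + M - I - 2)) : False := by
  have g0 : 2 * (D + M) ≥ I * I + 5 * I + 8 := by nlinarith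
  have gI : 0 ≤ I * I := mul_nonneg hI0 hI0
  have g1 : I + 1 ≤ M := by
    by_contra hcon
    push Not at hcon
    have hle : 0 ≤ I - M := by linarith
    have hpos : 0 ≤ D + (D + M - I) - 1 := by linarith
    have hp := mul_nonneg hle hpos
    nlinarith
  by_cases hD : I + 2 ≤ D
  · have hp := mul_nonneg (show (0 : ℤ) ≤ D - (I + 2) by linarith)
      (show (0 : ℤ) ≤ M - (I + 1) by linarith)
    nlinarith
  · push Not at hD
    have hD' : D ≤ I + 1 := by linarith
    have hT : 0 ≤ D + M := by linarith
    have e1 : s + (D + M) ≤ (D + M) * (I + 1) :=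
      k4.trans (mul_le_mul_of_nonneg_left hD' hT)
    have e2 : 0 ≤ (I - 1) * (I - 2) := by
      rcases le_or_gt I 1 with h | h
      · exact mul_nonneg_of_nonpos_of_nonpos (by linarith) (by linarith)
      · exact mul_nonneg (by linarith) (by linarith)
    have e3 : 0 ≤ D + M - (4 * I + 3) := by nlinarith
    have e4 := mul_nonneg hT e3
    nlinarith

/-- values in a gap are not attained -/
theorem gap_not_realized {n t i k : ℕ} (hn : 1 ≤ n) (G : SimpleGraph (Fin n))
    (hG : G.edgeSet.ncard = t) (hk : (conn G).card + k = t.choose 2)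
    (h1 : (i : ℤ) * t - ((i + 1).choose 2 : ℕ) < k) (h2 : (k : ℤ) < (i + 1) * (t - i - 2)) :
    False := by
  classical
  have hne : Nonempty (Fin n) := ⟨⟨0, hn⟩⟩
  obtain ⟨v, hv⟩ := G.exists_maximal_degree_vertex
  set Δ := G.degree v with hΔ
  have hmax : ∀ w, G.degree w ≤ Δ := by
    intro w
    rw [← hv]
    exact G.degree_le_maxDegree w
  have l1 := lower G v
  have l2 := upper_small G Δ hmax
  obtain ⟨l3, l4⟩ := upper_large G v
  rw [← hΔ] at l1 l3 l4
  rw [hG] at l2 l3 l4
  obtain ⟨m, rfl⟩ := Nat.exists_eq_add_of_le l3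
  have hm : Δ + m - Δ = m := by omega
  rw [hm] at l4
  -- everything over the integers
  have c1 : (2 : ℤ) * (Δ.choose 2 : ℕ) + Δ = Δ * Δ := by exact_mod_cast two_choose Δ
  have c2 : (2 : ℤ) * ((m + 1).choose 2 : ℕ) + (m + 1) = (m + 1) * (m + 1) := by
    exact_mod_cast two_choose (m + 1)
  have c3 : (2 : ℤ) * ((i + 1).choose 2 : ℕ) + (i + 1) = (i + 1) * (i + 1) := by
    exact_mod_cast two_choose (i + 1)
  have c4 : (2 : ℤ) * ((Δ + m).choose 2 : ℕ) + (Δ + m) = (Δ + m) * (Δ + m) := by
    exact_mod_cast two_choose (Δ + m)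
  have k1 : ((conn G).card : ℤ) + k = ((Δ + m).choose 2 : ℕ) := by exact_mod_cast hk
  have k2 : ((Δ.choose 2 : ℕ) : ℤ) ≤ (conn G).card := by exact_mod_cast l1
  have k3 : ((conn G).card : ℤ) ≤ (Δ.choose 2 : ℕ) + ((m + 1).choose 2 : ℕ) := by
    exact_mod_cast l4
  have k4 : ((conn G).card : ℤ) + (Δ + m) ≤ (Δ + m) * Δ := by exact_mod_cast l2
  push_cast at h1 h2
  exact arith_gap Δ m i k ((conn G).card : ℤ) _ _ _ _ (Int.natCast_nonneg _) (Int.natCast_nonneg _)
    c1 c2 c3 c4 k1 k2 k3 k4 h1 h2

/-! ### the theorem -/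

theorem tmax_spec {n t : ℕ} (hn : 3 ≤ n) (ht : t ≤ tmax n) : t * (t + 1) < n - 2 := by
  have h1 : tmax n ∈ {t : ℕ | t * (t + 1) < n - 2} := by
    apply Nat.sSup_mem
    · exact ⟨0, by simp; omega⟩
    · refine ⟨n, ?_⟩
      intro t ht
      have ht' : t * (t + 1) < n - 2 := ht
      have h3 : t ≤ t * (t + 1) := Nat.le_mul_of_pos_right t (Nat.succ_pos t)
      omega
  have h2 : tmax n * (tmax n + 1) < n - 2 := h1
  exact lt_of_le_of_lt (Nat.mul_le_mul ht (Nat.add_le_add_right ht 1)) h2

/-- For `n ≥ 3` and `0 ≤ t ≤ t_max`, the missing values in `[a_t, b_t]` are those of the wrong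
parity and the numbers `a_t + 2k` such that for some `i ≥ 0`
`i t - C(i+1,2) < k < (i+1)(t-i-2)`. -/
theorem result : ∀ n t : ℕ, 3 ≤ n → t ≤ tmax n →
    Set.Icc (a n t) (b n t) \ S n t =
      {x | x ∈ Set.Icc (a n t) (b n t) ∧ (¬ 2 ∣ (x - a n t) ∨
        ∃ k i : ℕ, x = a n t + 2 * k ∧
          (i : ℤ) * t - ((i + 1).choose 2 : ℕ) < k ∧ (k : ℤ) < (i + 1) * (t - i - 2))} := by
  intro n t hn htm
  have ht := tmax_spec hn htm
  have hnt : t + 1 ≤ n := by nlinarith [Nat.zero_le t, Nat.sub_le n 2]
  have hn2 : 2 * t + 2 ≤ n := by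
    have h1 : t * (t + 1) + 2 < n := by omega
    rcases Nat.eq_zero_or_pos t with rfl | hp
    · omega
    · nlinarith
  have hch := two_choose t
  -- `b = a + 2 C(t,2)`
  have hab : b n t = a n t + 2 * t.choose 2 := by
    unfold a b
    obtain ⟨d, rfl⟩ := Nat.exists_eq_add_of_le hnt
    have h2 : t + 1 + d - t - 1 = d := by omega
    rw [h2]
    rcases Nat.eq_zero_or_pos t with rfl | hp
    · simp
    · obtain ⟨u, rfl⟩ := Nat.exists_eq_add_of_le hp
      have h3 : 1 + u + 1 + d - 2 = u + d := by omega
      rw [h3]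
      nlinarith
  ext x
  rw [Set.mem_sdiff]
  constructor
  · rintro ⟨hx, hS⟩
    refine ⟨hx, ?_⟩
    by_contra hcon
    push Not at hcon
    obtain ⟨h2, hg⟩ := hcon
    obtain ⟨k, hk⟩ := h2
    have hxk : x = a n t + 2 * k := by
      have := hx.1
      omega
    have hkc : k ≤ t.choose 2 := by
      have := hx.2
      omega
    apply hS
    rcases Nat.eq_zero_or_pos t with h0 | hp
    · -- no edges
      subst h0
      have hk0 : k = 0 := by simpa using hkc
      refine ⟨⊥, by simp, ?_⟩
      have h3 := frustrated_eq (⊥ : SimpleGraph (Fin n))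
      simp only [edgeSet_bot, Set.ncard_empty, zero_mul] at h3
      have h4 : a n 0 = 0 := by simp [a]
      omega
    · obtain ⟨G, hG, hc⟩ := not_gap_realized (n := n) (t := t) (s := t.choose 2 - k) hp hn2
        (Nat.sub_le _ _) (by
          intro i j c hij hjc hlt
          by_contra hcon
          push Not at hcon
          subst hij
          have c1 := two_choose c
          have c2 := two_choose (c + 1)
          have c3 := two_choose (i + 1)
          have c4 := two_choose (i + 1 + 1)
          refine absurd ?_ (not_lt.2 (hg k i hxk ?_))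
          · -- `k < (i+1)(t-i-2)`
            have e0 : (t : ℤ) = i + 1 + c := by exact_mod_cast hjc.symm
            have e1 : (2 : ℤ) * (c.choose 2 : ℕ) + c = c * c := by exact_mod_cast c1
            have e4 : (2 : ℤ) * ((i + 1 + 1).choose 2 : ℕ) + (i + 1 + 1) =
              (i + 1 + 1) * (i + 1 + 1) := by exact_mod_cast c4
            have e5 : (2 : ℤ) * (t.choose 2 : ℕ) + t = t * t := by exact_mod_cast hch
            have e6 : ((c.choose 2 : ℕ) : ℤ) + ((i + 1 + 1).choose 2 : ℕ) + k < (t.choose 2 : ℕ) := by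
              have : c.choose 2 + (i + 1 + 1).choose 2 + k < t.choose 2 := by omega
              exact_mod_cast this
            rw [e0] at e5 ⊢
            nlinarith
          · have e0 : (t : ℤ) = i + 1 + c := by exact_mod_cast hjc.symm
            have e2 : (2 : ℤ) * ((c + 1).choose 2 : ℕ) + (c + 1) = (c + 1) * (c + 1) := by
              exact_mod_cast c2
            have e3 : (2 : ℤ) * ((i + 1).choose 2 : ℕ) + (i + 1) = (i + 1) * (i + 1) := by
              exact_mod_cast c3
            have e5 : (2 : ℤ) * (t.choose 2 : ℕ) + t = t * t := by exact_mod_cast hch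
            have e6 : ((t.choose 2 : ℕ) : ℤ) < ((c + 1).choose 2 : ℕ) + k := by
              have : t.choose 2 < (c + 1).choose 2 + k := by omega
              exact_mod_cast this
            rw [e0] at e5 ⊢
            nlinarith)
      refine ⟨G, hG, ?_⟩
      have h3 := frustrated_eq G
      rw [hG, hc] at h3
      have h4 : b n t = t * (n - 2) := rfl
      omega
  · rintro ⟨hx, hor⟩
    refine ⟨hx, ?_⟩
    rintro ⟨G, hG, hf⟩
    have h3 := frustrated_eq G
    rw [hG, hf] at h3
    have h4 : b n t = t * (n - 2) := rfl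
    rcases hor with hodd | ⟨k, i, hxk, h1, h2⟩
    · apply hodd
      have := hx.1
      omega
    · exact gap_not_realized (by omega) G hG (k := k) (by omega) h1 h2

end Pool.Agent.Results.MP_5df1f6_co.MissingValues
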